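import Pool.Agent.Helper2.EG.Stmts

set_option autoImplicit false

/-! MP_861132_nt: sets of density zero. -/

namespace Pool.Agent.Helper2.EG

theorem du_sub (A B : Set ℕ) (h : A ⊆ B) (hB : DZ B) : DZ A := by
  intro ε hε
  obtain ⟨N0, hN⟩ := hB ε hε
  refine ⟨N0, fun N hN' => ?_⟩
  have h1 : (A ∩ Set.Iic N).ncard ≤ (B ∩ Set.Iic N).ncard :=
    Set.ncard_le_ncard (Set.inter_subset_inter_left _ h)
      ((Set.finite_Iic N).subset Set.inter_subset_right)
  exact (by exact_mod_cast h1 : ((A ∩ Set.Iic N).ncard : ℝ) ≤ (B ∩ Set.Iic N).ncard).trans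
    (hN N hN')

theorem du_union (A B : Set ℕ) (hA : DZ A) (hB : DZ B) : DZ (A ∪ B) := by
  intro ε hε
  obtain ⟨N0, hN⟩ := hA (ε / 2) (by linarith)
  obtain ⟨N1, hN1⟩ := hB (ε / 2) (by linarith)
  refine ⟨max N0 N1, fun N hN' => ?_⟩
  have e1 := hN N (le_trans (le_max_left _ _) hN')
  have e2 := hN1 N (le_trans (le_max_right _ _) hN')
  have h1 : ((A ∪ B) ∩ Set.Iic N).ncard ≤ (A ∩ Set.Iic N).ncard + (B ∩ Set.Iic N).ncard := by
    rw [Set.union_inter_distrib_right]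
    exact Set.ncard_union_le _ _
  have h2 : (((A ∪ B) ∩ Set.Iic N).ncard : ℝ) ≤
      (A ∩ Set.Iic N).ncard + (B ∩ Set.Iic N).ncard := by exact_mod_cast h1
  linarith

theorem du_fin (A : Set ℕ) (h : A.Finite) : DZ A := by
  intro ε hε
  obtain ⟨N0, hN⟩ := exists_nat_ge ((A.ncard : ℝ) / ε)
  refine ⟨N0, fun N hN' => ?_⟩
  have h1 : (A ∩ Set.Iic N).ncard ≤ A.ncard := Set.ncard_le_ncard Set.inter_subset_left h
  have h2 : ((A ∩ Set.Iic N).ncard : ℝ) ≤ A.ncard := by exact_mod_cast h1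
  have h3 : (N0 : ℝ) ≤ N := by exact_mod_cast hN'
  rw [div_le_iff₀ hε] at hN
  nlinarith

theorem st_DU : ST_DU := by
  refine ⟨du_sub, du_union, du_fin, ?_⟩
  intro K
  induction K with
  | zero =>
    intro F _
    apply du_fin
    have : {n : ℕ | ∃ k < 0, n ∈ F k} = ∅ := by
      ext n
      simp
    rw [this]
    exact Set.finite_empty
  | succ K ih =>
    intro F hF
    apply du_sub _ ({n | ∃ k < K, n ∈ F k} ∪ F K)
    · rintro n ⟨k, hk, hn⟩
      rcases Nat.lt_succ_iff_lt_or_eq.1 hk with h | h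
      · exact Or.inl ⟨k, h, hn⟩
      · subst h
        exact Or.inr hn
    · exact du_union _ _ (ih F fun k hk => hF k (by omega)) (hF K (by omega))

end Pool.Agent.Helper2.EG
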